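import Pool.Agent.Helper27.VF.Goals

set_option autoImplicit false

namespace Pool.Agent.Helper37.VF

open Pool.Agent.Helper27.VF

universe u

theorem dist_smul_le {A W : Type u} [Group A] [MulAction A W] {G₀ : SimpleGraph W}
    (inv₀ : ∀ (a : A) (x y : W), G₀.Adj x y → G₀.Adj (a • x) (a • y)) (conn : G₀.Connected)
    (a : A) (x y : W) : G₀.dist (a • x) (a • y) ≤ G₀.dist x y := by
  obtain ⟨q, hq⟩ := conn.exists_walk_length_eq_dist x y
  let f : G₀ →g G₀ := ⟨fun z => a • z, fun {u v} h => inv₀ a u v h⟩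
  have := SimpleGraph.dist_le (q.map f)
  rw [SimpleGraph.Walk.length_map, hq] at this
  exact this

theorem ball_finite {W : Type u} {G₀ : SimpleGraph W} (conn : G₀.Connected)
    (lf : ∀ x, {y | G₀.Adj x y}.Finite) (x : W) (n : ℕ) : {y | G₀.dist x y ≤ n}.Finite := by
  induction n with
  | zero =>
    refine (Set.finite_singleton x).subset ?_
    intro y hy
    have h0 : G₀.dist x y = 0 := Nat.le_zero.1 hy
    exact (conn.dist_eq_zero_iff.1 h0).symm
  | succ n ih =>
    refine (ih.union (ih.biUnion fun z _ => lf z)).subset ?_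
    intro y hy
    obtain ⟨q, hq⟩ := conn.exists_walk_length_eq_dist y x
    have hy' : G₀.dist x y ≤ n + 1 := hy
    rw [SimpleGraph.dist_comm] at hy'
    cases q with
    | nil =>
      left
      show G₀.dist _ _ ≤ n
      rw [SimpleGraph.dist_self]
      exact Nat.zero_le _
    | @cons _ z _ h q' =>
      right
      rw [Set.mem_iUnion₂]
      refine ⟨z, ?_, h.symm⟩
      show G₀.dist x z ≤ n
      rw [SimpleGraph.dist_comm]
      have h1 := SimpleGraph.dist_le q'
      rw [SimpleGraph.Walk.length_cons] at hq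
      omega

theorem leave {W : Type u} {G₀ : SimpleGraph W} (conn : G₀.Connected) {U : Set W} {x z : W}
    (q : G₀.Walk x z) : x ∈ U → z ∈ U ∨
      ∃ b, (b ∈ U ∧ ∃ y, y ∉ U ∧ G₀.Adj b y) ∧ G₀.dist x b ≤ q.length := by
  induction q with
  | nil => intro hx; exact Or.inl hx
  | @cons x v z h q' ih =>
    intro hx
    by_cases hv : v ∈ U
    · rcases ih hv with h1 | ⟨b, hb, h1⟩
      · exact Or.inl h1
      · refine Or.inr ⟨b, hb, ?_⟩
        have h2 := conn.dist_triangle (u := x) (v := v) (w := b)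
        have h3 : G₀.dist x v = 1 := SimpleGraph.dist_eq_one_iff_adj.2 h
        rw [SimpleGraph.Walk.length_cons]
        omega
    · refine Or.inr ⟨x, ⟨hx, v, hv, h⟩, ?_⟩
      rw [SimpleGraph.dist_self]
      exact Nat.zero_le _

/-- FAC. -/
theorem fac : FacStmt.{u} := by
  intro A W _ _ G G₀ w p h
  have hball := ball_finite h.conn h.lf
  have h1 : ∃ R : ℕ, ∀ x : W, ∃ a : A, G₀.dist (a • w) x ≤ R := by
    obtain ⟨F, hF, hF'⟩ := h.fin
    obtain ⟨R, hR⟩ : ∃ R : ℕ, ∀ f ∈ F, G₀.dist w f ≤ R := by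
      obtain ⟨R, hR⟩ := (hF.image fun f => G₀.dist w f).bddAbove
      exact ⟨R, fun f hf => hR ⟨f, hf, rfl⟩⟩
    refine ⟨R, fun x => ?_⟩
    obtain ⟨a, f, hf, rfl⟩ := hF' x
    exact ⟨a, (dist_smul_le h.inv₀ h.conn a w f).trans (hR f hf)⟩
  refine ⟨h1, hball, ?_⟩
  intro U hU hb hfin
  obtain ⟨R, hR⟩ := h1
  apply hU
  refine ((hfin.biUnion fun a _ => hball (a • w) R).union
    (hb.biUnion fun b _ => hball b R)).subset ?_
  intro x hx
  obtain ⟨a, ha⟩ := hR x
  obtain ⟨q, hq⟩ := h.conn.exists_walk_length_eq_dist x (a • w)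
  rw [SimpleGraph.dist_comm] at ha
  rcases leave h.conn q hx with h2 | ⟨b, hb', h2⟩
  · left
    rw [Set.mem_iUnion₂]
    refine ⟨a, h2, ?_⟩
    show G₀.dist (a • w) x ≤ R
    rw [SimpleGraph.dist_comm]
    exact ha
  · right
    rw [Set.mem_iUnion₂]
    refine ⟨b, hb', ?_⟩
    show G₀.dist b x ≤ R
    rw [SimpleGraph.dist_comm]
    omega

end Pool.Agent.Helper37.VF
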