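import Pool.Agent.Helper96.VF.GoalsL

/-!
Project VF (MP_6829b3_nt), packet GCHI.
-/

set_option autoImplicit false

namespace Pool.Agent.Helper96.VF

theorem chi_iff {y : ℕ} (hy : 2 ≤ y) :
    Chi y ↔ (Nat.log 3 (y / 2) = Nat.log 3 y ∧ Nat.log 4 (y / 2) = Nat.log 4 y) := by
  constructor
  · rintro ⟨⟨j, h1, h2⟩, ⟨b, h3, h4⟩⟩
    have e1 : Nat.log 4 y = j :=
      Nat.log_eq_of_pow_le_of_lt_pow (by omega) (by rw [pow_succ]; omega)
    have e2 : Nat.log 4 (y / 2) = j :=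
      Nat.log_eq_of_pow_le_of_lt_pow (by omega) (by rw [pow_succ]; omega)
    have e3 : Nat.log 3 y = b :=
      Nat.log_eq_of_pow_le_of_lt_pow (by omega) (by rw [pow_succ]; omega)
    have e4 : Nat.log 3 (y / 2) = b :=
      Nat.log_eq_of_pow_le_of_lt_pow (by omega) (by rw [pow_succ]; omega)
    exact ⟨by rw [e4, e3], by rw [e2, e1]⟩
  · rintro ⟨h3, h4⟩
    have a3 : 3 ^ Nat.log 3 (y / 2) ≤ y / 2 := Nat.pow_log_le_self 3 (by omega)
    have a4 : 4 ^ Nat.log 4 (y / 2) ≤ y / 2 := Nat.pow_log_le_self 4 (by omega)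
    have b3 : y < 3 ^ (Nat.log 3 y + 1) := Nat.lt_pow_succ_log_self (by norm_num) y
    have b4 : y < 4 ^ (Nat.log 4 y + 1) := Nat.lt_pow_succ_log_self (by norm_num) y
    rw [h3] at a3
    rw [h4] at a4
    rw [pow_succ] at b3 b4
    exact ⟨⟨Nat.log 4 y, by omega, by omega⟩, ⟨Nat.log 3 y, by omega, by omega⟩⟩

/-- **GCHI.** -/
theorem gGCHI : GCHI := by
  intro y hy
  have hm3 : Nat.log 3 (y / 2) ≤ Nat.log 3 y := Nat.log_mono_right (by omega)
  have hm4 : Nat.log 4 (y / 2) ≤ Nat.log 4 y := Nat.log_mono_right (by omega)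
  rcases Nat.lt_or_ge y 2 with h1 | h2
  · obtain rfl : y = 1 := by omega
    have hn : ¬ Chi 1 := by
      rintro ⟨⟨j, h1, _⟩, _⟩
      have : 0 < 4 ^ j := pow_pos (by norm_num) j
      omega
    rw [if_neg hn]
    simp [g, H]
  · have e1 : H y = Nat.log 3 y + Nat.log 4 y + 2 := by
      rw [H, if_neg (by omega)]
    have e2 : H (y / 2) = Nat.log 3 (y / 2) + Nat.log 4 (y / 2) + 2 := by
      rw [H, if_neg (by omega)]
    rw [g, e1, e2]
    by_cases hc : Chi y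
    · rw [if_pos hc]
      obtain ⟨h3, h4⟩ := (chi_iff h2).1 hc
      rw [h3, h4]
      omega
    · rw [if_neg hc]
      have h5 : ¬ (Nat.log 3 (y / 2) = Nat.log 3 y ∧ Nat.log 4 (y / 2) = Nat.log 4 y) :=
        fun h => hc ((chi_iff h2).2 h)
      omega

end Pool.Agent.Helper96.VF
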