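import Pool.Agent.Helper38.VF.Goals2

set_option autoImplicit false

namespace Pool.Agent.Helper37.VF

open Pool.Agent.Helper27.VF Pool.Agent.Helper38.VF

universe u

/-- IN2. -/
theorem in2 (hDra : DraStmt.{u}) (hDev : DevStmt.{u}) (hDst : DstStmt.{u}) (hTof : TofStmt.{u})
    (hFac : FacStmt.{u}) : In2Stmt.{u} := by
  intro k
  induction k with
  | zero =>
    intro A W _ _ G G₀ w p _ _ _
    refine ⟨Fin.elim0, ?_⟩
    intro M _ _ _ _ _
    have : {e : Fin 0 → M | ∃ δ : A → M, IsDer δ ∧ ∀ i, e i = δ (Fin.elim0 i)} = Set.univ := by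
      refine Set.eq_univ_of_forall fun e => ⟨fun _ => 0, ?_, fun i => i.elim0⟩
      intro b b'
      simp
    rw [this]
    exact dense_univ
  | succ k ih =>
    intro A W _ _ G G₀ w p h tf hcon
    have hA : (Set.univ : Set A).Infinite := by
      have h1 := (hFac A W G G₀ w p h).2.2 Set.univ
        (fun hf => h.nonp _ hf Filter.univ_mem) (by
          have : {x : W | x ∈ (Set.univ : Set W) ∧ ∃ y, y ∉ (Set.univ : Set W) ∧ G₀.Adj x y} = ∅ := by
            ext x
            simp
          rw [this]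
          exact Set.finite_empty)
      exact h1.mono fun _ _ => trivial
    have hex : ∃ m : ℕ, ∃ c, IsCut G c ∧ (sep c).ncard = m ∧ ∃ a b : A, Dis p c a b := by
      by_contra hne
      refine hcon ⟨Set.univ, hA, fun a _ b _ c hc hd => hne ⟨_, c, hc, rfl, a, b, hd⟩⟩
    classical
    obtain ⟨m, hm, hmin⟩ : ∃ m : ℕ, (∃ c, IsCut G c ∧ (sep c).ncard = m ∧ ∃ a b : A, Dis p c a b) ∧
        ∀ m' < m, ¬ ∃ c, IsCut G c ∧ (sep c).ncard = m' ∧ ∃ a b : A, Dis p c a b :=
      ⟨Nat.find hex, Nat.find_spec hex, fun m' hm' => Nat.find_min hex hm'⟩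
    have hMn : Mn A G p m := by
      intro c hc a b hd
      by_contra hlt
      exact hmin _ (not_le.1 hlt) ⟨c, hc, rfl, a, b, hd⟩
    have hSS : (SS A G p m).Nonempty := by
      obtain ⟨c, h1, h2, h3⟩ := hm
      exact ⟨c, h1, h2, h3⟩
    obtain ⟨x, y, hy, hxy⟩ := hDev A W G G₀ w p h m hMn tf hSS
    obtain ⟨W', inst, G', G₀', w', p', hS, hC⟩ := hTof A W G G₀ w p h m hMn tf
    have tf' : TF (BB A G p m) := by
      intro a n hn ha
      apply Subtype.ext
      apply tf a.1 n hn
      have := congrArg Subtype.val ha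
      simpa using this
    have hden : Den (BB A G p m) k :=
      ih (BB A G p m) W' G' G₀' w' p' hS tf' fun hc => hcon (hC hc)
    exact hDst A (BB A G p m) x y hy
      (fun M _ _ f hf => hDra A W G G₀ w p h m hMn tf M f hf) hxy k hden

end Pool.Agent.Helper37.VF
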